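import Mathlib

set_option autoImplicit false

/-! # From large prime gaps to first occurrences of runs of composite numbers -/

namespace Pool.Agent.H226R2.ShanksGap

open Filter Topology

/-- the analytic part: the choice of `X` for a given `g` -/
theorem ana (c : ℝ) (hc : 0 < c) (X₀ : ℝ) : ∃ G : ℕ, ∀ g : ℕ, G ≤ g →
    let Y := (16 / c) * g * (Real.log (Real.log g)) ^ 2 /
      ((Real.log g) ^ 2 * Real.log (Real.log (Real.log g)))
    X₀ ≤ Real.exp Y ∧
    (g : ℝ) + 1 ≤ c * (Y * (Real.log Y) ^ 2 * Real.log (Real.log (Real.log Y)) /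
      (Real.log (Real.log Y)) ^ 2) := by
  have hg : Tendsto (fun g : ℕ => (g : ℝ)) atTop atTop := tendsto_natCast_atTop_atTop
  have h1 : Tendsto (fun g : ℕ => Real.log (g : ℝ)) atTop atTop := Real.tendsto_log_atTop.comp hg
  have h2 : Tendsto (fun g : ℕ => Real.log (Real.log (g : ℝ))) atTop atTop :=
    Real.tendsto_log_atTop.comp h1
  have h3 : Tendsto (fun g : ℕ => Real.log (Real.log (Real.log (g : ℝ)))) atTop atTop :=
    Real.tendsto_log_atTop.comp h2
  -- log x = o(x)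
  have hlo : ∀ ε : ℝ, 0 < ε → ∀ᶠ x : ℝ in atTop, Real.log x ≤ ε * x := by
    intro ε hε
    have := Real.isLittleO_log_id_atTop.bound hε
    filter_upwards [this, eventually_ge_atTop (1 : ℝ)] with x hx hx1
    have h0 : 0 ≤ Real.log x := Real.log_nonneg hx1
    simpa [abs_of_nonneg h0, abs_of_nonneg (by linarith : (0 : ℝ) ≤ x)] using hx
  -- (log x)^2 ≤ (16/c) * sqrt x
  have hlo2 : ∀ᶠ x : ℝ in atTop, (Real.log x) ^ 2 ≤ (16 / c) * Real.sqrt x := by
    have hb := (isLittleO_log_rpow_atTop (by norm_num : (0 : ℝ) < 1 / 4)).bound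
      (by positivity : 0 < Real.sqrt (16 / c))
    filter_upwards [hb, eventually_ge_atTop (1 : ℝ)] with x hx hx1
    have h0 : 0 ≤ Real.log x := Real.log_nonneg hx1
    have hx0 : (0 : ℝ) ≤ x := by linarith
    rw [Real.norm_eq_abs, Real.norm_eq_abs, abs_of_nonneg h0,
      abs_of_nonneg (Real.rpow_nonneg hx0 _)] at hx
    have h4 : (x ^ (1 / 4 : ℝ)) ^ 2 = Real.sqrt x := by
      rw [Real.sqrt_eq_rpow, ← Real.rpow_natCast, ← Real.rpow_mul hx0]
      norm_num
    calc (Real.log x) ^ 2 ≤ (Real.sqrt (16 / c) * x ^ (1 / 4 : ℝ)) ^ 2 := by gcongr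
      _ = (16 / c) * Real.sqrt x := by
        rw [mul_pow, h4, Real.sq_sqrt (by positivity)]
  obtain ⟨δ, hδ0, hδ⟩ : ∃ δ : ℝ, 0 < δ ∧ (16 / c) * δ ^ 2 ≤ 1 := by
    refine ⟨Real.sqrt (c / 16), by positivity, ?_⟩
    rw [Real.sq_sqrt (by positivity)]
    field_simp
    exact le_refl _
  have hev : ∀ᶠ g : ℕ in atTop,
      (16 : ℝ) ≤ g ∧ 1 ≤ Real.log (g : ℝ) ∧ 4 ≤ Real.log (Real.log (g : ℝ)) ∧
      2 * Real.log 2 + 1 ≤ Real.log (Real.log (Real.log (g : ℝ))) ∧
      Real.log (Real.log (g : ℝ)) ≤ δ * Real.log (g : ℝ) ∧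
      Real.log (Real.log (Real.log (g : ℝ))) ≤ 1 * Real.log (Real.log (g : ℝ)) ∧
      (Real.log (g : ℝ)) ^ 2 ≤ (16 / c) * Real.sqrt g ∧ max X₀ 1 ≤ Real.sqrt g := by
    filter_upwards [hg.eventually_ge_atTop 16, h1.eventually_ge_atTop 1, h2.eventually_ge_atTop 4,
      h3.eventually_ge_atTop (2 * Real.log 2 + 1), h1.eventually (hlo δ hδ0),
      h2.eventually (hlo 1 one_pos), hg.eventually hlo2,
      (Real.tendsto_sqrt_atTop.comp hg).eventually_ge_atTop (max X₀ 1)] with g a1 a2 a3 a4 a5 a6 a7 a8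
    exact ⟨a1, a2, a3, a4, a5, a6, a7, a8⟩
  obtain ⟨G, hG⟩ := eventually_atTop.1 hev
  refine ⟨G, fun g hgG => ?_⟩
  obtain ⟨a1, a2, a3, a4, a5, a6, a7, a8⟩ := hG g hgG
  intro Y
  set l1 := Real.log (g : ℝ) with hl1
  set l2 := Real.log l1 with hl2
  set l3 := Real.log l2 with hl3
  have hlog2 : 0 < Real.log 2 := Real.log_pos (by norm_num)
  have l1pos : 0 < l1 := by linarith
  have l2pos : 0 < l2 := by linarith
  have l3pos : 0 < l3 := by linarith
  have gpos : (0 : ℝ) < g := by linarith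
  have hY : Y = (16 / c) * g * l2 ^ 2 / (l1 ^ 2 * l3) := rfl
  -- Y ≥ sqrt g
  have hYlo : Real.sqrt g ≤ Y := by
    rw [hY, le_div_iff₀ (by positivity)]
    have e1 : Real.sqrt g * (l1 ^ 2 * l3) ≤ Real.sqrt g * ((16 / c) * Real.sqrt g * l3) := by
      gcongr
    have e2 : Real.sqrt g * ((16 / c) * Real.sqrt g * l3) = (16 / c) * g * l3 := by
      have := Real.mul_self_sqrt gpos.le
      calc _ = (16 / c) * (Real.sqrt g * Real.sqrt g) * l3 := by ring
        _ = _ := by rw [this]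
    have e3 : (16 / c) * g * l3 ≤ (16 / c) * g * l2 ^ 2 := by
      have : l3 ≤ l2 ^ 2 := by nlinarith
      gcongr
    linarith
  -- Y ≤ g
  have hYhi : Y ≤ g := by
    rw [hY, div_le_iff₀ (by positivity)]
    have e1 : (16 / c) * l2 ^ 2 ≤ l1 ^ 2 := by
      calc (16 / c) * l2 ^ 2 ≤ (16 / c) * (δ * l1) ^ 2 := by gcongr
        _ = ((16 / c) * δ ^ 2) * l1 ^ 2 := by ring
        _ ≤ 1 * l1 ^ 2 := by gcongr
        _ = l1 ^ 2 := one_mul _
    have e2 : l1 ^ 2 ≤ l1 ^ 2 * l3 := by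
      have : 1 ≤ l3 := by linarith
      nlinarith [sq_nonneg l1]
    calc (16 / c) * g * l2 ^ 2 = g * ((16 / c) * l2 ^ 2) := by ring
      _ ≤ g * (l1 ^ 2 * l3) := by
        apply mul_le_mul_of_nonneg_left _ gpos.le
        linarith
  have hsq1 : 1 ≤ Real.sqrt g := le_trans (le_max_right _ _) a8
  have hY1 : 1 ≤ Y := le_trans hsq1 hYlo
  have hYpos : 0 < Y := by linarith
  constructor
  · have := Real.add_one_le_exp Y
    have h8 := le_trans (le_max_left X₀ 1) a8
    linarith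
  -- logs of Y
  have hL1lo : l1 / 2 ≤ Real.log Y := by
    have : Real.log (Real.sqrt g) ≤ Real.log Y := Real.log_le_log (by linarith) hYlo
    rw [Real.log_sqrt gpos.le] at this
    exact this
  have hL1hi : Real.log Y ≤ l1 := Real.log_le_log hYpos hYhi
  have hL1pos : 0 < Real.log Y := by linarith
  have hl1big : 2 < l1 := by
    have h := Real.log_le_sub_one_of_pos l1pos
    linarith
  have hL2lo : l2 - Real.log 2 ≤ Real.log (Real.log Y) := by
    have : Real.log (l1 / 2) ≤ Real.log (Real.log Y) := Real.log_le_log (by linarith) hL1lo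
    rw [Real.log_div l1pos.ne' (by norm_num)] at this
    exact this
  have hL2hi : Real.log (Real.log Y) ≤ l2 := Real.log_le_log hL1pos hL1hi
  have hlog2' : Real.log 2 < 1 := by
    have := Real.log_two_lt_d9
    linarith
  have hL2pos : 0 < Real.log (Real.log Y) := by linarith
  have hL3lo : l3 - Real.log 2 ≤ Real.log (Real.log (Real.log Y)) := by
    have h4 : l2 / 2 ≤ Real.log (Real.log Y) := by linarith
    have : Real.log (l2 / 2) ≤ Real.log (Real.log (Real.log Y)) := Real.log_le_log (by linarith) h4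
    rw [Real.log_div l2pos.ne' (by norm_num)] at this
    exact this
  have hL3 : l3 / 2 ≤ Real.log (Real.log (Real.log Y)) := by linarith
  -- final
  have key : Y * (l1 / 2) ^ 2 * (l3 / 2) / l2 ^ 2 ≤
      Y * (Real.log Y) ^ 2 * Real.log (Real.log (Real.log Y)) / (Real.log (Real.log Y)) ^ 2 := by
    have hL3pos : 0 ≤ Real.log (Real.log (Real.log Y)) := by linarith
    have hnn : 0 ≤ Y * (Real.log Y) ^ 2 * Real.log (Real.log (Real.log Y)) := by positivity
    gcongr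
  have val : Y * (l1 / 2) ^ 2 * (l3 / 2) / l2 ^ 2 = 2 * g / c := by
    rw [hY]
    field_simp
    ring
  rw [val] at key
  calc (g : ℝ) + 1 ≤ 2 * g := by linarith
    _ = c * (2 * g / c) := by field_simp
    _ ≤ _ := by gcongr

/-- transfer from gaps to first occurrences -/
theorem transfer (ff : ℝ → ℝ)
    (hff : ∀ X, ff X = Real.log X * (Real.log (Real.log X)) ^ 2 *
      Real.log (Real.log (Real.log (Real.log X))) / (Real.log (Real.log (Real.log X))) ^ 2)
    (h : ∃ c : ℝ, 0 < c ∧ ∃ X₀ : ℝ, ∀ X : ℝ, X₀ ≤ X →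
      ∃ m : ℕ, (Nat.nth Nat.Prime (m + 1) : ℝ) ≤ X ∧
        c * ff X ≤ (Nat.nth Nat.Prime (m + 1) : ℝ) - Nat.nth Nat.Prime m) :
    ∃ C : ℝ, 0 < C ∧ ∃ G : ℕ, ∀ g : ℕ, G ≤ g →
      Real.log (((sInf {p : ℕ | p.Prime ∧ ∀ i : ℕ, 1 ≤ i → i ≤ g →
          (1 < p - i ∧ ¬ (p - i).Prime)} : ℕ) : ℝ)) ≤
        C * (g * (Real.log (Real.log g)) ^ 2 /
          ((Real.log g) ^ 2 * Real.log (Real.log (Real.log g)))) := by
  obtain ⟨c, hc, X₀, hX⟩ := h
  obtain ⟨G, hG⟩ := ana c hc X₀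
  refine ⟨16 / c, by positivity, G, fun g hg => ?_⟩
  obtain ⟨h1, h2⟩ := hG g hg
  set Y := (16 / c) * g * (Real.log (Real.log g)) ^ 2 /
      ((Real.log g) ^ 2 * Real.log (Real.log (Real.log g))) with hY
  obtain ⟨m, hm1, hm2⟩ := hX (Real.exp Y) h1
  rw [hff, Real.log_exp] at hm2
  set p := Nat.nth Nat.Prime (m + 1) with hp
  set q := Nat.nth Nat.Prime m with hq
  have hpp : p.Prime := Nat.prime_nth_prime _
  have hqp : q.Prime := Nat.prime_nth_prime _
  have hgap : q + g + 1 ≤ p := by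
    have : (q : ℝ) + g + 1 ≤ p := by linarith
    exact_mod_cast this
  have hmem : p ∈ {p : ℕ | p.Prime ∧ ∀ i : ℕ, 1 ≤ i → i ≤ g → (1 < p - i ∧ ¬ (p - i).Prime)} := by
    refine ⟨hpp, fun i hi1 hi2 => ⟨?_, fun hcon => ?_⟩⟩
    · have := hqp.two_le
      omega
    · -- p - i is strictly between consecutive primes
      have h3 : q < p - i := by omega
      have h4 : p - i < p := by omega
      have h5 : m + 1 ≤ Nat.count Nat.Prime (p - i) := by
        have : Nat.count Nat.Prime (q + 1) ≤ Nat.count Nat.Prime (p - i) :=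
          Nat.count_monotone _ h3
        rw [Nat.count_succ, Nat.count_nth_of_infinite Nat.infinite_setOfPred_prime, if_pos hqp] at this
        exact this
      have h6 : p - i = Nat.nth Nat.Prime (Nat.count Nat.Prime (p - i)) := (Nat.nth_count hcon).symm
      have h7 : Nat.nth Nat.Prime (m + 1) ≤ Nat.nth Nat.Prime (Nat.count Nat.Prime (p - i)) :=
        Nat.nth_monotone Nat.infinite_setOfPred_prime h5
      rw [← h6] at h7
      omega
  have hle := Nat.sInf_le hmem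
  have hpos : 0 < sInf {p : ℕ | p.Prime ∧ ∀ i : ℕ, 1 ≤ i → i ≤ g → (1 < p - i ∧ ¬ (p - i).Prime)} :=
    (Nat.sInf_mem ⟨p, hmem⟩).1.pos
  have h8 : Real.log (((sInf {p : ℕ | p.Prime ∧ ∀ i : ℕ, 1 ≤ i → i ≤ g →
      (1 < p - i ∧ ¬ (p - i).Prime)} : ℕ) : ℝ)) ≤ Real.log (Real.exp Y) := by
    apply Real.log_le_log
    · exact_mod_cast hpos
    · refine le_trans ?_ hm1
      exact_mod_cast hle
  rw [Real.log_exp] at h8
  refine h8.trans (le_of_eq ?_)
  rw [hY]
  ring

end Pool.Agent.H226R2.ShanksGap
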